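import Mathlib

/-!
Laplace's method on a circle (helper64).
-/

set_option autoImplicit false

namespace Pool.Agent.Lib_helper64.Laplace

open MeasureTheory Filter Topology Set Real

/-- `√n ∫_(-π)^π exp (n h θ) g θ dθ → g 0 √(2π/A)`. -/
theorem laplace (h g : ℝ → ℂ) (A : ℂ) (c : ℝ) (hc : 0 < c) (hA : 0 < A.re)
    (hh : ContinuousOn h (Icc (-π) π)) (hg : ContinuousOn g (Icc (-π) π))
    (hlim : Tendsto (fun θ : ℝ => h θ / (θ : ℂ) ^ 2) (𝓝[≠] 0) (𝓝 (-A / 2))) (h0 : h 0 = 0)
    (hre : ∀ θ ∈ Icc (-π) π, (h θ).re ≤ -(c * θ ^ 2)) :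
    Tendsto (fun n : ℕ => ((Real.sqrt n : ℝ) : ℂ) *
      ∫ θ in (-π)..π, Complex.exp ((n : ℂ) * h θ) * g θ) atTop
      (𝓝 (g 0 * (2 * (π : ℂ) / A) ^ (1 / 2 : ℂ))) := by
  have hpi := Real.pi_pos
  obtain ⟨B, hB⟩ : ∃ B : ℝ, ∀ θ ∈ Icc (-π) π, ‖g θ‖ ≤ B :=
    isCompact_Icc.exists_bound_of_continuousOn hg
  -- the integrand after substitution
  let F : ℕ → ℝ → ℂ := fun n t =>
    (Icc (-π) π).indicator (fun θ => Complex.exp ((n : ℂ) * h θ) * g θ) (t / Real.sqrt n)
  have hsub : ∀ n : ℕ, 1 ≤ n → ((Real.sqrt n : ℝ) : ℂ) *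
      (∫ θ in (-π)..π, Complex.exp ((n : ℂ) * h θ) * g θ) = ∫ t : ℝ, F n t := by
    intro n hn
    have hs : 0 < Real.sqrt n := Real.sqrt_pos.2 (by exact_mod_cast hn)
    have e1 : (∫ θ in (-π)..π, Complex.exp ((n : ℂ) * h θ) * g θ) =
        ∫ θ : ℝ, (Icc (-π) π).indicator (fun θ => Complex.exp ((n : ℂ) * h θ) * g θ) θ := by
      rw [intervalIntegral.integral_of_le (by linarith), integral_indicator measurableSet_Icc,
        integral_Icc_eq_integral_Ioc]
    rw [e1]
    have e2 := MeasureTheory.Measure.integral_comp_div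
      ((Icc (-π) π).indicator (fun θ => Complex.exp ((n : ℂ) * h θ) * g θ)) (Real.sqrt n)
    simp only [F]
    rw [e2, abs_of_pos hs, Complex.real_smul]
  have hmeas : ∀ n : ℕ, AEStronglyMeasurable (F n) volume := by
    intro n
    have hcont : ContinuousOn (fun θ => Complex.exp ((n : ℂ) * h θ) * g θ) (Icc (-π) π) :=
      ((continuousOn_const.mul hh).cexp).mul hg
    have hm : Measurable ((Icc (-π) π).indicator (fun θ => Complex.exp ((n : ℂ) * h θ) * g θ)) := by
      have h1 := hcont.measurable_piecewise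
        (continuousOn_const (c := (0 : ℂ)) (s := (Icc (-π) π)ᶜ)) measurableSet_Icc
      have h2 : (Icc (-π) π).indicator (fun θ => Complex.exp ((n : ℂ) * h θ) * g θ) =
          (Icc (-π) π).piecewise (fun θ => Complex.exp ((n : ℂ) * h θ) * g θ) (fun _ => 0) := by
        ext θ
        by_cases hθ : θ ∈ Icc (-π) π
        · rw [indicator_of_mem hθ, piecewise_eq_of_mem _ _ _ hθ]
        · rw [indicator_of_notMem hθ, piecewise_eq_of_notMem _ _ _ hθ]
      rw [h2]
      exact h1
    exact (hm.comp (measurable_id.div_const _)).aestronglyMeasurable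
  have hbound : ∀ n : ℕ, 1 ≤ n → ∀ t : ℝ, ‖F n t‖ ≤ B * Real.exp (-c * t ^ 2) := by
    intro n hn t
    have hs : 0 < Real.sqrt n := Real.sqrt_pos.2 (by exact_mod_cast hn)
    have hn0 : (0 : ℝ) < n := by exact_mod_cast hn
    have hB0 : 0 ≤ B := (norm_nonneg _).trans (hB 0 ⟨by linarith, by linarith⟩)
    simp only [F]
    by_cases ht : t / Real.sqrt n ∈ Icc (-π) π
    · rw [indicator_of_mem ht, norm_mul, Complex.norm_exp, mul_comm]
      refine mul_le_mul (hB _ ht) ?_ (Real.exp_pos _).le hB0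
      apply Real.exp_le_exp.2
      have h1 := hre _ ht
      have h2 : ((n : ℂ) * h (t / Real.sqrt n)).re = n * (h (t / Real.sqrt n)).re := by
        simp
      rw [h2]
      have h3 : (t / Real.sqrt n) ^ 2 = t ^ 2 / n := by
        rw [div_pow, Real.sq_sqrt hn0.le]
      rw [h3] at h1
      calc (n : ℝ) * (h (t / Real.sqrt n)).re ≤ n * (-(c * (t ^ 2 / n))) :=
            mul_le_mul_of_nonneg_left h1 hn0.le
        _ = -c * t ^ 2 := by field_simp
    · rw [indicator_of_notMem ht, norm_zero]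
      positivity
  have hlimF : ∀ t : ℝ, t ≠ 0 → Tendsto (fun n : ℕ => F n t) atTop
      (𝓝 (Complex.exp (-(A / 2) * (t : ℂ) ^ 2) * g 0)) := by
    intro t ht
    have hs : Tendsto (fun n : ℕ => t / Real.sqrt n) atTop (𝓝 0) :=
      Tendsto.div_atTop tendsto_const_nhds
        (Real.tendsto_sqrt_atTop.comp tendsto_natCast_atTop_atTop)
    have hs' : Tendsto (fun n : ℕ => t / Real.sqrt n) atTop (𝓝[≠] 0) := by
      rw [tendsto_nhdsWithin_iff]
      refine ⟨hs, ?_⟩
      filter_upwards [eventually_ge_atTop 1] with n hn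
      have : 0 < Real.sqrt n := Real.sqrt_pos.2 (by exact_mod_cast hn)
      exact div_ne_zero ht this.ne'
    have h1 := hlim.comp hs'
    have hmem : ∀ᶠ n : ℕ in atTop, t / Real.sqrt n ∈ Icc (-π) π :=
      hs.eventually (Icc_mem_nhds (by linarith) (by linarith))
    have h2 : Tendsto (fun n : ℕ => (n : ℂ) * h (t / Real.sqrt n)) atTop
        (𝓝 (-(A / 2) * (t : ℂ) ^ 2)) := by
      have h3 : Tendsto (fun n : ℕ => (h (t / Real.sqrt n) / ((t / Real.sqrt n : ℝ) : ℂ) ^ 2) *
          (t : ℂ) ^ 2) atTop (𝓝 (-A / 2 * (t : ℂ) ^ 2)) := h1.mul_const _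
      rw [show -(A / 2) * (t : ℂ) ^ 2 = -A / 2 * (t : ℂ) ^ 2 by ring]
      refine h3.congr' ?_
      filter_upwards [eventually_ge_atTop 1] with n hn
      have hn0 : (0 : ℝ) < n := by exact_mod_cast hn
      have hsq : ((Real.sqrt n : ℝ) : ℂ) ^ 2 = n := by
        rw [← Complex.ofReal_pow, Real.sq_sqrt hn0.le]
        simp
      have hsn : ((Real.sqrt n : ℝ) : ℂ) ≠ 0 := by
        simpa using (Real.sqrt_pos.2 hn0).ne'
      have htc : (t : ℂ) ≠ 0 := by exact_mod_cast ht
      rw [Complex.ofReal_div, div_pow, hsq]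
      field_simp
    have h4 : Tendsto (fun n : ℕ => g (t / Real.sqrt n)) atTop (𝓝 (g 0)) := by
      have := (hg.continuousAt (Icc_mem_nhds (by linarith : (-π : ℝ) < 0) hpi)).tendsto
      exact this.comp hs
    have h5 := (Complex.continuous_exp.continuousAt.tendsto.comp h2).mul h4
    refine h5.congr' ?_
    filter_upwards [hmem] with n hn
    simp only [F, Function.comp]
    rw [indicator_of_mem hn]
  have hint : Integrable (fun t : ℝ => B * Real.exp (-c * t ^ 2)) volume :=
    (integrable_exp_neg_mul_sq hc).const_mul B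
  have hmain : Tendsto (fun n : ℕ => ∫ t : ℝ, F (n + 1) t) atTop
      (𝓝 (∫ t : ℝ, Complex.exp (-(A / 2) * (t : ℂ) ^ 2) * g 0)) := by
    refine tendsto_integral_of_dominated_convergence _ (fun n => hmeas (n + 1)) hint
      (fun n => Eventually.of_forall (hbound (n + 1) (by omega))) ?_
    have hne : ∀ᵐ t : ℝ ∂volume, t ≠ 0 := by
      simp [ae_iff, measure_singleton]
    filter_upwards [hne] with t ht
    exact (hlimF t ht).comp (tendsto_add_atTop_nat 1)
  have hval : (∫ t : ℝ, Complex.exp (-(A / 2) * (t : ℂ) ^ 2) * g 0) =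
      g 0 * (2 * (π : ℂ) / A) ^ (1 / 2 : ℂ) := by
    rw [integral_mul_const, integral_gaussian_complex (by simpa using by linarith)]
    rw [mul_comm]
    congr 2
    field_simp
  rw [← hval]
  rw [← tendsto_add_atTop_iff_nat 1]
  refine hmain.congr ?_
  intro n
  exact (hsub (n + 1) (by omega)).symm

end Pool.Agent.Lib_helper64.Laplace
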